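import Mathlib

/-!
# Nivat's conjecture, project NV (helper65). Common definitions and the basic calculus of the action.

`V = ℤ × ℤ`, `R = ℂ[V]`, `act f c (p) = ∑ f_v c(p+v)`.
-/

set_option autoImplicit false

namespace NV

open AddMonoidAlgebra

/-- the plane -/
abbrev V : Type := ℤ × ℤ

/-- the group algebra -/
abbrev R : Type := AddMonoidAlgebra ℂ V

/-- translations as operators on configurations -/
noncomputable def shiftHom : Multiplicative V →* Module.End ℂ (V → ℂ) where
  toFun v :=
    { toFun := fun c p => c (p + v.toAdd)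
      map_add' := fun _ _ => rfl
      map_smul' := fun _ _ => rfl }
  map_one' := by
    ext c p
    simp
  map_mul' := by
    intro a b
    refine LinearMap.ext fun c => funext fun p => ?_
    change c (p + (a.toAdd + b.toAdd)) = c (p + a.toAdd + b.toAdd)
    rw [add_assoc]

/-- the action as an algebra map -/
noncomputable def actHom : R →ₐ[ℂ] Module.End ℂ (V → ℂ) :=
  AddMonoidAlgebra.lift ℂ (Module.End ℂ (V → ℂ)) V shiftHom

/-- `act f c (p) = ∑ f_v c(p+v)` -/
noncomputable def act (f : R) (c : V → ℂ) : V → ℂ := actHom f c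

/-- the monomial `X^v` -/
noncomputable def X (v : V) : R := AddMonoidAlgebra.single v 1

/-- the line factor `X^w - la` -/
noncomputable def pi (w : V) (la : ℂ) : R := X w - AddMonoidAlgebra.single 0 la

/-- finite valued -/
def FV (c : V → ℂ) : Prop := (Set.range c).Finite

/-- doubly periodic -/
def DP (c : V → ℂ) : Prop := ∃ M : ℕ, 0 < M ∧ ∀ v p : V, c (p + M • v) = c p

/-- product of the line factors of a finite set -/
noncomputable def gE (E : Finset (V × ℂ)) : R := ∏ x ∈ E, pi x.1 x.2

/-- the block at position `p` for the index map `s` -/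
def blk {ι : Type} (s : ι → V) (c : V → ℂ) (p : V) : ι → ℂ := fun i => c (p + s i)

theorem act_apply (f : R) (c : V → ℂ) (p : V) :
    act f c p = f.coeff.sum (fun v a => a * c (p + v)) := by
  unfold act actHom
  rw [AddMonoidAlgebra.lift_apply]
  unfold Finsupp.sum
  rw [LinearMap.sum_apply, Finset.sum_apply]
  rfl

theorem act_mul (f g : R) (c : V → ℂ) : act (f * g) c = act f (act g c) := by
  unfold act; rw [map_mul]; rfl

theorem act_one (c : V → ℂ) : act 1 c = c := by
  unfold act; rw [map_one]; rfl

theorem act_zero (c : V → ℂ) : act 0 c = 0 := by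
  unfold act; rw [map_zero]; rfl

theorem act_add (f g : R) (c : V → ℂ) : act (f + g) c = act f c + act g c := by
  unfold act; rw [map_add]; rfl

theorem act_sub (f g : R) (c : V → ℂ) : act (f - g) c = act f c - act g c := by
  unfold act; rw [map_sub]; rfl

theorem act_neg (f : R) (c : V → ℂ) : act (-f) c = - act f c := by
  unfold act; rw [map_neg]; rfl

theorem act_smul (a : ℂ) (f : R) (c : V → ℂ) : act (a • f) c = a • act f c := by
  unfold act; rw [map_smul]; rfl

theorem act_sum {κ : Type*} (s : Finset κ) (f : κ → R) (c : V → ℂ) :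
    act (∑ i ∈ s, f i) c = ∑ i ∈ s, act (f i) c := by
  unfold act; rw [map_sum, LinearMap.sum_apply]

theorem act_zero_right (f : R) : act f (0 : V → ℂ) = 0 := by
  unfold act; rw [map_zero]

theorem act_add_right (f : R) (c d : V → ℂ) : act f (c + d) = act f c + act f d := by
  unfold act; rw [map_add]

theorem act_sub_right (f : R) (c d : V → ℂ) : act f (c - d) = act f c - act f d := by
  unfold act; rw [map_sub]

theorem act_smul_right (f : R) (a : ℂ) (c : V → ℂ) : act f (a • c) = a • act f c := by
  unfold act; rw [map_smul]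

theorem act_comm (f g : R) (c : V → ℂ) : act f (act g c) = act g (act f c) := by
  rw [← act_mul, ← act_mul, mul_comm]

theorem act_single (v : V) (a : ℂ) (c : V → ℂ) (p : V) :
    act (AddMonoidAlgebra.single v a) c p = a * c (p + v) := by
  rw [act_apply, AddMonoidAlgebra.coeff_single, Finsupp.sum_single_index]
  simp

theorem act_X (v : V) (c : V → ℂ) (p : V) : act (X v) c p = c (p + v) := by
  unfold X; rw [act_single, one_mul]

theorem act_pi (w : V) (la : ℂ) (c : V → ℂ) (p : V) :
    act (pi w la) c p = c (p + w) - la * c p := by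
  unfold pi; rw [act_sub, Pi.sub_apply, act_X, act_single, add_zero]

theorem X_zero : X 0 = 1 := rfl

theorem X_mul (v w : V) : X v * X w = X (v + w) := by
  unfold X; rw [AddMonoidAlgebra.single_mul_single, one_mul]

theorem X_pow (v : V) (n : ℕ) : X v ^ n = X (n • v) := by
  induction n with
  | zero => rw [pow_zero, zero_smul, X_zero]
  | succ n ih => rw [pow_succ, ih, X_mul, succ_nsmul]

theorem X_mul_X_neg (v : V) : X v * X (-v) = 1 := by
  rw [X_mul, add_neg_cancel, X_zero]

theorem FV.act {c : V → ℂ} (hc : FV c) (f : R) : FV (act f c) := by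
  classical
  -- the value at `p` is a function of the values at `p+v`, `v ∈ supp f`
  let s := f.coeff.support
  have hfin : (Set.pi Set.univ (fun _ : s => Set.range c)).Finite :=
    Set.Finite.pi (fun _ => hc)
  refine (hfin.image (fun g : s → ℂ => ∑ v : s, f.coeff v * g v)).subset ?_
  rintro _ ⟨p, rfl⟩
  refine ⟨fun v => c (p + v), ?_, ?_⟩
  · intro v _; exact ⟨_, rfl⟩
  · rw [act_apply]; unfold Finsupp.sum
    exact (Finset.sum_coe_sort s (fun v => f.coeff v * c (p + v)))

theorem DP.act {c : V → ℂ} (hc : DP c) (f : R) : DP (act f c) := by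
  obtain ⟨M, hM, h⟩ := hc
  refine ⟨M, hM, fun v p => ?_⟩
  rw [act_apply, act_apply]
  unfold Finsupp.sum
  refine Finset.sum_congr rfl fun w _ => ?_
  have e : p + M • v + w = (p + w) + M • v := by abel
  change f.coeff w * c (p + M • v + w) = f.coeff w * c (p + w)
  rw [e, h]

theorem DP.sub {c d : V → ℂ} (hc : DP c) (hd : DP d) : DP (c - d) := by
  obtain ⟨M, hM, h⟩ := hc
  obtain ⟨N, hN, h'⟩ := hd
  refine ⟨M * N, Nat.mul_pos hM hN, fun v p => ?_⟩
  have e1 : c (p + (M * N) • v) = c p := by
    rw [mul_smul]; exact h _ _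
  have e2 : d (p + (M * N) • v) = d p := by
    rw [mul_comm M N, mul_smul]; exact h' _ _
  simp only [Pi.sub_apply, e1, e2]

theorem DP.const (a : ℂ) : DP (fun _ => a) := ⟨1, one_pos, fun _ _ => rfl⟩

theorem gE_empty : gE ∅ = 1 := by unfold gE; rw [Finset.prod_empty]

theorem gE_insert {E : Finset (V × ℂ)} {x : V × ℂ} (h : x ∉ E) [DecidableEq (V × ℂ)] :
    gE (insert x E) = pi x.1 x.2 * gE E := by
  unfold gE; rw [Finset.prod_insert h]

theorem gE_erase {E : Finset (V × ℂ)} {x : V × ℂ} (h : x ∈ E) [DecidableEq (V × ℂ)] :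
    pi x.1 x.2 * gE (E.erase x) = gE E := by
  unfold gE; exact Finset.mul_prod_erase E (fun x => pi x.1 x.2) h

end NV
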